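import Pool.Agent.Lib.RzT.Grig

/-!
The Grigorchuk group is residually finite.
-/

set_option autoImplicit false

namespace RzR

open Pool.Agent.Lib.Pb99418 RzT

theorem exists_N_rf : ∃ (N : Subgroup (FreeGroup (Fin 4))) (_ : N.Normal),
    Infinite (FreeGroup (Fin 4) ⧸ N) ∧ (∀ w : FreeGroup (Fin 4), ∃ k : ℕ, 0 < k ∧ w ^ k ∈ N) ∧
      Folner (FreeGroup (Fin 4) ⧸ N) ∧
      ∀ w : FreeGroup (Fin 4), w ∉ N → ∃ N' : Subgroup (FreeGroup (Fin 4)),
        N'.Normal ∧ N'.FiniteIndex ∧ N ≤ N' ∧ w ∉ N' := by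
  let e : FreeGroup (Fin 4) ⧸ gmap.ker ≃* G :=
    QuotientGroup.quotientKerEquivOfSurjective gmap gmap_surj
  refine ⟨gmap.ker, inferInstance, ?_, ?_, ?_, ?_⟩
  · have := grig_infinite
    exact e.toEquiv.infinite_iff.mpr this
  · intro w
    obtain ⟨k, hk, h⟩ := grig_periodic (gmap w)
    exact ⟨k, hk, by rw [MonoidHom.mem_ker, map_pow, h]⟩
  · apply ext_folner e.toMonoidHom e.surjective _ grig_folner
    intro a ha b hb
    have h1 : a = 1 := e.injective (by rw [map_one]; exact ha)
    have h2 : b = 1 := e.injective (by rw [map_one]; exact hb)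
    rw [h1, h2]
  · intro w hw
    have h1 : ∃ u : List Bool, (gmap w : Equiv.Perm (List Bool)) u ≠ u := by
      by_contra h
      push Not at h
      apply hw
      rw [MonoidHom.mem_ker]
      exact Subtype.ext (Equiv.ext h)
    obtain ⟨u, hu⟩ := h1
    let κ : FreeGroup (Fin 4) →* Gn u.length := (QuotientGroup.mk' (stab u.length)).comp gmap
    refine ⟨κ.ker, inferInstance, inferInstance, ?_, ?_⟩
    · intro x hx
      show QuotientGroup.mk' (stab u.length) (gmap x) = 1
      rw [MonoidHom.mem_ker.mp hx, map_one]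
    · intro hmem
      have h2 : QuotientGroup.mk' (stab u.length) (gmap w) = 1 := hmem
      rw [QuotientGroup.mk'_apply, QuotientGroup.eq_one_iff] at h2
      exact hu (h2 u rfl)

end RzR
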