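import Pool.Agent.Lib.RzV.Wr

/-!
The Magnus embedding with finitely supported flows is faithful on `F/[N,N]`.
-/

set_option autoImplicit false

namespace RzR

/-- the restricted wreath product of a free abelian group on `α` by `H` -/
@[ext] structure X (H α : Type) where
  /-- the flow -/
  f : (H × α) →₀ ℤ
  /-- the top part -/
  h : H

namespace X

variable {H α : Type} [Group H]

/-- translation -/
noncomputable def tr (g : H) (f : (H × α) →₀ ℤ) : (H × α) →₀ ℤ :=
  f.mapDomain (fun p => (g * p.1, p.2))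

theorem tr_add (g : H) (f f' : (H × α) →₀ ℤ) : tr g (f + f') = tr g f + tr g f' :=
  Finsupp.mapDomain_add

theorem tr_zero (g : H) : tr g (0 : (H × α) →₀ ℤ) = 0 := Finsupp.mapDomain_zero

theorem tr_neg (g : H) (f : (H × α) →₀ ℤ) : tr g (-f) = - tr g f := by
  rw [eq_neg_iff_add_eq_zero, ← tr_add, neg_add_cancel, tr_zero]

theorem tr_tr (g g' : H) (f : (H × α) →₀ ℤ) : tr g (tr g' f) = tr (g * g') f := by
  rw [tr, tr, ← Finsupp.mapDomain_comp, tr]
  congr 1
  funext p
  simp [mul_assoc]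

theorem tr_one (f : (H × α) →₀ ℤ) : tr 1 f = f := by
  have : (fun p : H × α => ((1 : H) * p.1, p.2)) = id := by
    funext p
    simp
  rw [tr, this, Finsupp.mapDomain_id]

theorem tr_single (g : H) (p : H × α) (n : ℤ) :
    tr g (Finsupp.single p n) = Finsupp.single (g * p.1, p.2) n := by
  rw [tr, Finsupp.mapDomain_single]

noncomputable instance : Mul (X H α) := ⟨fun a b => ⟨a.f + tr a.h b.f, a.h * b.h⟩⟩
noncomputable instance : One (X H α) := ⟨⟨0, 1⟩⟩
noncomputable instance : Inv (X H α) := ⟨fun a => ⟨- tr a.h⁻¹ a.f, a.h⁻¹⟩⟩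

theorem mul_f (a b : X H α) : (a * b).f = a.f + tr a.h b.f := rfl
theorem mul_h (a b : X H α) : (a * b).h = a.h * b.h := rfl
theorem one_f : (1 : X H α).f = 0 := rfl
theorem one_h : (1 : X H α).h = 1 := rfl
theorem inv_f (a : X H α) : (a⁻¹).f = - tr a.h⁻¹ a.f := rfl
theorem inv_h (a : X H α) : (a⁻¹).h = a.h⁻¹ := rfl

noncomputable instance : Group (X H α) := Group.ofLeftAxioms
  (by
    intro a b c
    apply X.ext
    · rw [mul_f, mul_f, mul_f, mul_f, mul_h, tr_add, tr_tr, add_assoc]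
    · simp only [mul_h, mul_assoc])
  (by
    intro a
    apply X.ext
    · rw [mul_f, one_f, one_h, tr_one, zero_add]
    · simp [mul_h, one_h])
  (by
    intro a
    apply X.ext
    · rw [mul_f, inv_f, inv_h, one_f, neg_add_cancel]
    · simp [mul_h, one_h, inv_h])

end X

variable {α : Type} (N : Subgroup (FreeGroup α)) [N.Normal]

/-- all flows together -/
noncomputable def Fl : FreeGroup α →* X (FreeGroup α ⧸ N) α :=
  FreeGroup.lift fun i => ⟨Finsupp.single (1, i) 1, QuotientGroup.mk (FreeGroup.of i)⟩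

theorem Fl_of (i : α) : Fl N (FreeGroup.of i) =
    ⟨Finsupp.single (1, i) 1, QuotientGroup.mk (FreeGroup.of i)⟩ := FreeGroup.lift_apply_of

theorem Fl_h (w : FreeGroup α) : (Fl N w).h = QuotientGroup.mk w := by
  induction w using FreeGroup.induction_on with
  | C1 => rw [map_one]; rfl
  | of i => rw [Fl_of]
  | inv_of i hi => rw [map_inv, X.inv_h, hi]; rfl
  | mul x y hx hy => rw [map_mul, X.mul_h, hx, hy]; rfl

/-- the image of `N` in `F/[N,N]` -/
def Nb : Subgroup (FreeGroup α ⧸ ⁅N, N⁆) := N.map (QuotientGroup.mk' ⁅N, N⁆)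

theorem Nb_comm (a b : Nb N) : a * b = b * a := by
  obtain ⟨_, a, ha, rfl⟩ := a
  obtain ⟨_, b, hb, rfl⟩ := b
  exact Subtype.ext (RzG.mk_comm N ha hb)

instance : CommGroup (Nb N) := { (inferInstance : Group (Nb N)) with mul_comm := Nb_comm N }

/-- a section -/
noncomputable def s (y : FreeGroup α ⧸ N) : FreeGroup α := y.out

omit [N.Normal] in
theorem mk_s (y : FreeGroup α ⧸ N) : (QuotientGroup.mk (s N y) : FreeGroup α ⧸ N) = y :=
  QuotientGroup.out_eq' y

theorem c_mem (p : (FreeGroup α ⧸ N) × α) :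
    s N p.1 * FreeGroup.of p.2 * (s N (p.1 * QuotientGroup.mk (FreeGroup.of p.2)))⁻¹ ∈ N := by
  rw [← QuotientGroup.eq_one_iff, QuotientGroup.mk_mul, QuotientGroup.mk_mul,
    QuotientGroup.mk_inv, mk_s, mk_s, mul_inv_cancel]

/-- Schreier generators modulo `[N,N]` -/
noncomputable def c (p : (FreeGroup α ⧸ N) × α) : Nb N :=
  ⟨QuotientGroup.mk (s N p.1 * FreeGroup.of p.2 *
    (s N (p.1 * QuotientGroup.mk (FreeGroup.of p.2)))⁻¹), _, c_mem N p, rfl⟩

/-- evaluation of a flow -/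
noncomputable def E (f : ((FreeGroup α ⧸ N) × α) →₀ ℤ) : Nb N := f.prod fun p n => c N p ^ n

theorem E_add (f f' : ((FreeGroup α ⧸ N) × α) →₀ ℤ) : E N (f + f') = E N f * E N f' :=
  Finsupp.prod_add_index' (fun _ => zpow_zero _) (fun _ _ _ => zpow_add _ _ _)

theorem E_zero : E N 0 = 1 := Finsupp.prod_zero_index

theorem E_neg (f : ((FreeGroup α ⧸ N) × α) →₀ ℤ) : E N (-f) = (E N f)⁻¹ := by
  rw [eq_inv_iff_mul_eq_one, ← E_add, neg_add_cancel, E_zero]

theorem E_single (p : (FreeGroup α ⧸ N) × α) : E N (Finsupp.single p 1) = c N p := by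
  rw [E, Finsupp.prod_single_index (zpow_zero _), zpow_one]

theorem rep (w : FreeGroup α) : ∀ g : FreeGroup α ⧸ N,
    (QuotientGroup.mk w : FreeGroup α ⧸ ⁅N, N⁆) =
      (QuotientGroup.mk (s N g))⁻¹ * (E N (X.tr g (Fl N w).f) : FreeGroup α ⧸ ⁅N, N⁆) *
        QuotientGroup.mk (s N (g * QuotientGroup.mk w)) := by
  have hinv : ∀ w : FreeGroup α, (∀ g : FreeGroup α ⧸ N,
      (QuotientGroup.mk w : FreeGroup α ⧸ ⁅N, N⁆) =
      (QuotientGroup.mk (s N g))⁻¹ * (E N (X.tr g (Fl N w).f) : FreeGroup α ⧸ ⁅N, N⁆) *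
        QuotientGroup.mk (s N (g * QuotientGroup.mk w))) → ∀ g : FreeGroup α ⧸ N,
      (QuotientGroup.mk w⁻¹ : FreeGroup α ⧸ ⁅N, N⁆) =
      (QuotientGroup.mk (s N g))⁻¹ * (E N (X.tr g (Fl N w⁻¹).f) : FreeGroup α ⧸ ⁅N, N⁆) *
        QuotientGroup.mk (s N (g * QuotientGroup.mk w⁻¹)) := by
    intro w hw g
    have h1 := hw (g * QuotientGroup.mk w⁻¹)
    have h2 : g * QuotientGroup.mk w⁻¹ * QuotientGroup.mk w = g := by
      rw [QuotientGroup.mk_inv, inv_mul_cancel_right]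
    rw [h2] at h1
    have h3 : X.tr g (Fl N w⁻¹).f = - X.tr (g * QuotientGroup.mk w⁻¹) (Fl N w).f := by
      rw [map_inv, X.inv_f, Fl_h, X.tr_neg, X.tr_tr, QuotientGroup.mk_inv]
    have h4 : (QuotientGroup.mk w⁻¹ : FreeGroup α ⧸ ⁅N, N⁆) = (QuotientGroup.mk w)⁻¹ := rfl
    rw [h3, E_neg, h4, h1, Subgroup.coe_inv]
    group
  induction w using FreeGroup.induction_on with
  | C1 =>
    intro g
    rw [map_one, X.one_f, X.tr_zero, E_zero]
    rw [QuotientGroup.mk_one, QuotientGroup.mk_one, mul_one, Subgroup.coe_one, mul_one,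
      inv_mul_cancel]
  | of i =>
    intro g
    rw [Fl_of]
    dsimp only
    rw [X.tr_single, mul_one, E_single]
    show (QuotientGroup.mk (FreeGroup.of i) : FreeGroup α ⧸ ⁅N, N⁆) =
      (QuotientGroup.mk (s N g))⁻¹ * QuotientGroup.mk (s N g * FreeGroup.of i *
        (s N (g * QuotientGroup.mk (FreeGroup.of i)))⁻¹) * QuotientGroup.mk _
    rw [← QuotientGroup.mk_inv, ← QuotientGroup.mk_mul, ← QuotientGroup.mk_mul]
    congr 1
    group
  | inv_of i hi => exact hinv _ hi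
  | mul x y hx hy =>
    intro g
    rw [QuotientGroup.mk_mul, hx g, hy (g * QuotientGroup.mk x), map_mul, X.mul_f, X.tr_add,
      X.tr_tr, Fl_h, E_add, Subgroup.coe_mul, QuotientGroup.mk_mul, mul_assoc g]
    group

theorem faithful (w : FreeGroup α) (hw : w ∈ N) (hf : (Fl N w).f = 0) : w ∈ ⁅N, N⁆ := by
  have h := rep N w 1
  rw [hf, X.tr_zero, E_zero, (QuotientGroup.eq_one_iff w).mpr hw] at h
  rw [mul_one, Subgroup.coe_one, mul_one, inv_mul_cancel] at h
  exact (QuotientGroup.eq_one_iff w).mp h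

end RzR
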