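import Pool.Agent.Lib.RzR.Mag

/-!
`F/[N,N]` is residually finite if `F/N` is.
-/

set_option autoImplicit false

namespace RzR

open RzV (V)

variable {H K α : Type} [Group H] [Group K]

theorem tr_apply (g : H) (f : (H × α) →₀ ℤ) (y : H) (i : α) :
    X.tr g f (y, i) = f (g⁻¹ * y, i) := by
  have hinj : Function.Injective (fun p : H × α => (g * p.1, p.2)) := by
    rintro ⟨a, b⟩ ⟨a', b'⟩ h
    simp only [Prod.mk.injEq, mul_right_inj] at h
    exact Prod.ext h.1 h.2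
  have h : (y, i) = (fun p : H × α => (g * p.1, p.2)) (g⁻¹ * y, i) := by simp
  rw [X.tr, h, Finsupp.mapDomain_apply hinj]

/-- push forward along `ρ` -/
noncomputable def push (ρ : H →* K) (f : (H × α) →₀ ℤ) : (K × α) →₀ ℤ :=
  f.mapDomain (fun p => (ρ p.1, p.2))

theorem push_tr (ρ : H →* K) (g : H) (f : (H × α) →₀ ℤ) :
    push ρ (X.tr g f) = X.tr (ρ g) (push ρ f) := by
  rw [push, push, X.tr, X.tr, ← Finsupp.mapDomain_comp, ← Finsupp.mapDomain_comp]
  congr 1
  funext p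
  simp

/-- the homomorphism to a wreath product with coefficients mod `m` -/
noncomputable def chi (ρ : H →* K) (i : α) (m : ℕ) : X H α →* V (ZMod m) K :=
  MonoidHom.mk' (fun a => ⟨fun y => ((push ρ a.f (y, i) : ℤ) : ZMod m), ρ a.h⟩) (by
    intro a b
    ext y
    · show ((push ρ (a.f + X.tr a.h b.f) (y, i) : ℤ) : ZMod m) =
        ((push ρ a.f (y, i) : ℤ) : ZMod m) + ((push ρ b.f ((ρ a.h)⁻¹ * y, i) : ℤ) : ZMod m)
      have h1 : push ρ (a.f + X.tr a.h b.f) = push ρ a.f + push ρ (X.tr a.h b.f) :=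
        Finsupp.mapDomain_add
      rw [h1, push_tr, Finsupp.add_apply, tr_apply]
      push_cast
      rfl
    · show ρ (a.h * b.h) = ρ a.h * ρ b.h
      exact map_mul ρ _ _)

instance (m : ℕ) [NeZero m] [Finite K] : Finite (V (ZMod m) K) := by
  apply Finite.of_injective (fun a : V (ZMod m) K => (a.f, a.h))
  intro a b h
  simp only [Prod.mk.injEq] at h
  exact V.ext h.1 h.2

theorem push_apply (ρ : H →* K) (f : (H × α) →₀ ℤ) (y : H) (i : α)
    (hy : ∀ z : H, f (z, i) ≠ 0 → z ≠ y → ρ z ≠ ρ y) : push ρ f (ρ y, i) = f (y, i) := by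
  classical
  rw [push, Finsupp.mapDomain, Finsupp.sum_apply, Finsupp.sum]
  rw [Finset.sum_eq_single (y, i)]
  · simp
  · rintro ⟨z, j⟩ hz hne
    rw [Finsupp.single_apply, if_neg]
    intro h
    simp only [Prod.mk.injEq] at h
    obtain ⟨h1, rfl⟩ := h
    apply hy z (Finsupp.mem_support_iff.mp hz) _ h1
    rintro rfl
    exact hne rfl
  · intro h
    rw [Finsupp.notMem_support_iff] at h
    rw [h]
    simp

variable (N : Subgroup (FreeGroup α)) [N.Normal]

omit [N.Normal] in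
theorem sep (hRF : ∀ w : FreeGroup α, w ∉ N → ∃ N' : Subgroup (FreeGroup α),
      N'.Normal ∧ N'.FiniteIndex ∧ N ≤ N' ∧ w ∉ N') (S : Finset (FreeGroup α))
    (hS : ∀ w ∈ S, w ∉ N) : ∃ N' : Subgroup (FreeGroup α),
      N'.Normal ∧ N'.FiniteIndex ∧ N ≤ N' ∧ ∀ w ∈ S, w ∉ N' := by
  classical
  induction S using Finset.induction_on with
  | empty => exact ⟨⊤, inferInstance, inferInstance, le_top, by simp⟩
  | insert a S ha ih =>
    obtain ⟨N1, h1, h2, h3, h4⟩ := ih (fun w hw => hS w (Finset.mem_insert_of_mem hw))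
    obtain ⟨N2, k1, k2, k3, k4⟩ := hRF a (hS a (Finset.mem_insert_self _ _))
    refine ⟨N1 ⊓ N2, inferInstance, inferInstance, le_inf h3 k3, ?_⟩
    intro w hw hmem
    rcases Finset.mem_insert.mp hw with rfl | hw
    · exact k4 hmem.2
    · exact h4 w hw hmem.1

theorem rf (hRF : ∀ w : FreeGroup α, w ∉ N → ∃ N' : Subgroup (FreeGroup α),
      N'.Normal ∧ N'.FiniteIndex ∧ N ≤ N' ∧ w ∉ N') (g : FreeGroup α ⧸ ⁅N, N⁆) (hg : g ≠ 1) :
    ∃ U : Subgroup (FreeGroup α ⧸ ⁅N, N⁆), U.Normal ∧ U.FiniteIndex ∧ g ∉ U := by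
  classical
  obtain ⟨w, rfl⟩ := QuotientGroup.mk_surjective g
  have hw : w ∉ ⁅N, N⁆ := fun h => hg ((QuotientGroup.eq_one_iff w).mpr h)
  by_cases hwN : w ∈ N
  · have hf : (Fl N w).f ≠ 0 := fun h => hw (faithful N w hwN h)
    obtain ⟨⟨y, i⟩, hyi⟩ := Finsupp.ne_iff.mp hf
    rw [Finsupp.zero_apply] at hyi
    obtain ⟨v, hv⟩ := QuotientGroup.mk_surjective y
    let S : Finset (FreeGroup α) :=
      (((Fl N w).f.support.image fun p => v⁻¹ * s N p.1).filter fun x => x ∉ N)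
    obtain ⟨N', h1, h2, h3, h4⟩ := sep N hRF S (fun x hx => (Finset.mem_filter.mp hx).2)
    let ρ : FreeGroup α ⧸ N →* FreeGroup α ⧸ N' :=
      QuotientGroup.lift N (QuotientGroup.mk' N') (fun x hx =>
        (QuotientGroup.eq_one_iff x).mpr (h3 hx))
    have hρ : ∀ x : FreeGroup α, ρ (QuotientGroup.mk x) = QuotientGroup.mk x := fun x => rfl
    let m : ℕ := ((Fl N w).f (y, i)).natAbs + 1
    let κ : FreeGroup α →* V (ZMod m) (FreeGroup α ⧸ N') := (chi ρ i m).comp (Fl N)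
    have hκh : ∀ x ∈ N, (κ x).h = 1 := by
      intro x hx
      show ρ (Fl N x).h = 1
      rw [Fl_h, (QuotientGroup.eq_one_iff x).mpr hx, map_one]
    have hκ : ⁅N, N⁆ ≤ κ.ker := by
      rw [Subgroup.commutator_le]
      intro a ha b hb
      rw [MonoidHom.mem_ker, map_commutatorElement, commutatorElement_eq_one_iff_mul_comm]
      ext z
      · rw [V.mul_f, V.mul_f, hκh a ha, hκh b hb, inv_one, one_mul, add_comm]
      · rw [V.mul_h, V.mul_h, hκh a ha, hκh b hb]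
    let κ' : FreeGroup α ⧸ ⁅N, N⁆ →* V (ZMod m) (FreeGroup α ⧸ N') :=
      QuotientGroup.lift ⁅N, N⁆ κ (fun x hx => hκ hx)
    have hfq : Finite (FreeGroup α ⧸ N') := Subgroup.finite_quotient_of_finiteIndex
    have : NeZero m := ⟨Nat.succ_ne_zero _⟩
    refine ⟨κ'.ker, inferInstance, inferInstance, ?_⟩
    intro hmem
    have hk1 : κ w = 1 := hmem
    have hk2 : (κ w).f (ρ y) = 0 := by rw [hk1]; rfl
    have hk3 : (κ w).f (ρ y) = ((push ρ (Fl N w).f (ρ y, i) : ℤ) : ZMod m) := rfl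
    rw [hk3, push_apply, ZMod.intCast_zmod_eq_zero_iff_dvd] at hk2
    · have h5 := Int.natAbs_dvd_natAbs.mpr hk2
      rw [Int.natAbs_natCast] at h5
      have h6 := Nat.le_of_dvd (Int.natAbs_pos.mpr hyi) h5
      exact absurd h6 (Nat.not_succ_le_self _)
    · intro z hz hzy hρz
      have hx : v⁻¹ * s N z ∉ N := by
        rw [← QuotientGroup.eq, hv, mk_s]
        exact fun h => hzy h.symm
      have hxS : v⁻¹ * s N z ∈ S :=
        Finset.mem_filter.mpr ⟨Finset.mem_image.mpr ⟨(z, i), Finsupp.mem_support_iff.mpr hz, rfl⟩,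
          hx⟩
      apply h4 _ hxS
      rw [← QuotientGroup.eq, ← hρ, ← hρ, hv, mk_s, hρz]
  · obtain ⟨N', h1, h2, h3, h4⟩ := hRF w hwN
    have hle : ⁅N, N⁆ ≤ N' := (Subgroup.commutator_le_self N).trans h3
    let ρ : FreeGroup α ⧸ ⁅N, N⁆ →* FreeGroup α ⧸ N' :=
      QuotientGroup.lift ⁅N, N⁆ (QuotientGroup.mk' N') (fun x hx =>
        (QuotientGroup.eq_one_iff x).mpr (hle hx))
    have hfq : Finite (FreeGroup α ⧸ N') := Subgroup.finite_quotient_of_finiteIndex
    refine ⟨ρ.ker, inferInstance, inferInstance, ?_⟩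
    intro hmem
    exact h4 ((QuotientGroup.eq_one_iff w).mp hmem)

end RzR
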